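import Pool.Agent.V5helper99.Urn.CycMain
import Pool.Agent.TH996.Urn.Kn

/-!
All cycles have no coexistence in the multi-type urn process, for any number of colours.
-/

set_option autoImplicit false

namespace Pool.Agent.Results.MP_747d65_pr.Cycles

open Pool.Agent.TH996.Urn

/-- **Theorem.** For every `k ≥ 3` and every number `s` of colours the cycle `C_k` lies in the
class `𝒢_s`: for every finite initial configuration the `s`-type urn process on the cycle of length
`k` almost surely has exactly one surviving colour. -/
theorem result (k s : ℕ) (hk : 3 ≤ k) : InClass (SimpleGraph.cycleGraph k) s := by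
  obtain ⟨n, rfl⟩ : ∃ n, k = n + 3 := ⟨k - 3, by omega⟩
  rcases Nat.eq_zero_or_pos n with h | h
  · subst h
    have e : SimpleGraph.cycleGraph (0 + 3) = (⊤ : SimpleGraph (Fin 3)) :=
      SimpleGraph.cycleGraph_three_eq_top
    obtain ⟨f, hf, c, hc, N₀, hd⟩ := complete_drift 3 s (by norm_num)
    have h3 : InClass (⊤ : SimpleGraph (Fin 3)) s :=
      criterion _ SimpleGraph.connected_top f hf c hc N₀ hd
    exact e ▸ h3
  · exact Pool.Agent.V5helper99.Urn.Cyc.cycle_inClass h s

end Pool.Agent.Results.MP_747d65_pr.Cycles
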